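import Pool.Agent.Helper94.ZS.Basic

/-!
# Zonotope signing, module 16: the number of sample sets
-/

namespace Pool.Agent.Helper94.ZS

open Finset Pool.Agent.Helper38.ZS
open scoped Classical

noncomputable section

/-- `b K ^ 3 ≤ exp (a K)` eventually -/
theorem cub_exp (a b : ℝ) (ha : 0 < a) (hb : 0 ≤ b) :
    ∃ K0 : ℝ, ∀ K : ℝ, K0 ≤ K → b * K ^ 3 ≤ Real.exp (a * K) := by
  refine ⟨24 * b / a ^ 4, fun K hK => ?_⟩
  have hK0 : 0 ≤ K := le_trans (by positivity) hK
  have h1 := Real.pow_div_factorial_le_exp (a * K) (by positivity) 4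
  have h3 : 24 * b ≤ a ^ 4 * K := by
    have := mul_le_mul_of_nonneg_left hK (show (0 : ℝ) ≤ a ^ 4 by positivity)
    rwa [mul_div_cancel₀ _ (by positivity)] at this
  have h4 : b * K ^ 3 ≤ (a * K) ^ 4 / 24 := by
    have h5 : 24 * b * K ^ 3 ≤ a ^ 4 * K * K ^ 3 :=
      mul_le_mul_of_nonneg_right h3 (by positivity)
    have h6 : (a * K) ^ 4 = a ^ 4 * K * K ^ 3 := by ring
    rw [h6]; linarith
  have h7 : ((Nat.factorial 4 : ℕ) : ℝ) = 24 := by norm_num [Nat.factorial]
  rw [h7] at h1
  linarith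

/-- counting through a map with small fibres -/
theorem card_le_of_fibre {α β : Type} [DecidableEq β] (s : Finset α) (f : α → β) (T : Finset β) (a b : ℝ)
    (hf : ∀ x ∈ s, f x ∈ T) (hT : (#T : ℝ) ≤ a) (hb0 : 0 ≤ b)
    (hfib : ∀ y ∈ T, (#(s.filter (fun x => f x = y)) : ℝ) ≤ b) : (#s : ℝ) ≤ a * b := by
  have h1 : #s = ∑ y ∈ T, #(s.filter (fun x => f x = y)) := card_eq_sum_card_fiberwise hf
  calc (#s : ℝ) = ∑ y ∈ T, (#(s.filter (fun x => f x = y)) : ℝ) := by rw [h1]; push_cast; rfl
    _ ≤ ∑ _y ∈ T, b := sum_le_sum hfib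
    _ = (#T : ℝ) * b := by rw [sum_const, nsmul_eq_mul]
    _ ≤ a * b := mul_le_mul_of_nonneg_right hT hb0

/-- tuples of integer vectors supported in one set -/
theorem card_tuples (h14 : ST_ZCNT) {ι : Type} [Fintype ι] (N : ℕ) (S : Finset ι) (B : ℝ)
    (F : Finset (Fin N → ι → ℤ))
    (hF : ∀ z ∈ F, (∀ i k, k ∉ S → z i k = 0) ∧ ∑ i, lc (z i) ≤ B) :
    (#F : ℝ) ≤ Real.exp (2 * ((N : ℝ) * #S)) * Real.exp (3 * B) := by
  let u : (Fin N → ι → ℤ) → (Fin N × ι → ℤ) := fun z p => z p.1 p.2
  have hu : Function.Injective u := by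
    intro z w h
    funext i k
    exact congrFun h (i, k)
  have h1 : #(F.image u) = #F := card_image_of_injective F hu
  have h2 := h14 (Fin N × ι) (univ ×ˢ S) B (F.image u) (by
    intro z hz
    rw [mem_image] at hz
    obtain ⟨w, hw, rfl⟩ := hz
    obtain ⟨hw1, hw2⟩ := hF w hw
    refine ⟨?_, ?_⟩
    · intro p hp
      refine hw1 p.1 p.2 fun h => hp ?_
      rw [mem_product]; exact ⟨mem_univ _, h⟩
    · unfold lc
      rw [Fintype.sum_prod_type]
      exact hw2)
  rw [h1, card_product, card_univ, Fintype.card_fin] at h2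
  refine h2.trans (mul_le_mul_of_nonneg_right ?_ (Real.exp_pos _).le)
  have h3 : (4 : ℝ) ≤ Real.exp 2 := by
    have := Real.quadratic_le_exp_of_nonneg (x := 2) (by norm_num)
    norm_num at this
    linarith
  calc (4 : ℝ) ^ (N * #S) ≤ (Real.exp 2) ^ (N * #S) := pow_le_pow_left₀ (by norm_num) h3 _
    _ = Real.exp (2 * ((N : ℝ) * #S)) := by
      rw [← Real.exp_nat_mul]; congr 1; push_cast; ring

theorem st_COUNT (h11 : ST_STEP) (h12 : ST_TOP) (h14 : ST_ZCNT) (h15 : ST_SUB) : ST_COUNT := by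
  intro γ κ C hγ hγ1 hκ hκ1 hC
  obtain ⟨K11, h11⟩ := h11 γ κ C hγ hγ1 hκ hκ1 hC
  obtain ⟨K12, h12⟩ := h12 γ κ C hγ hγ1 hκ hκ1 hC
  obtain ⟨K15, h15⟩ := h15
  obtain ⟨Ka, hKa⟩ := cub_exp (1 / 1600) 2 (by norm_num) (by norm_num)
  obtain ⟨Kb, hKb⟩ := cub_exp (1 / 800) 10 (by norm_num) (by norm_num)
  obtain ⟨Kc, hKc⟩ := cub_exp (1 / 16) 200 (by norm_num) (by norm_num)
  obtain ⟨Kd, hKd⟩ := cub_exp 1 1 (by norm_num) (by norm_num)
  refine ⟨max K11 (max K12 (max K15 (max 1 (max Ka (max Kb (max Kc Kd)))))), ?_⟩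
  intro K hK ι _ P m k hP hm
  -- induction on the number of steps
  suffices hind : ∀ n : ℕ, ∀ K : ℝ,
      max K11 (max K12 (max K15 (max 1 (max Ka (max Kb (max Kc Kd)))))) ≤ K →
      3 * Real.log m ≤ 2 ^ n * K → (#(SK P γ κ C m K k) : ℝ) ≤ Real.exp (20 * m / K ^ 2) by
    obtain ⟨n, hn⟩ := pow_unbounded_of_one_lt (3 * Real.log m) (show (1 : ℝ) < 2 by norm_num)
    refine hind n K hK (hn.le.trans ?_)
    have hK1 : (1 : ℝ) ≤ K := by
      refine le_trans ?_ hK
      exact (le_max_left _ _).trans ((le_max_right _ _).trans ((le_max_right _ _).trans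
        (le_max_right _ _)))
    exact le_mul_of_one_le_right (by positivity) hK1
  clear hK K
  intro n
  have hm0 : 0 < m := by linarith
  -- facts for every admissible K
  have hmain : ∀ K : ℝ, max K11 (max K12 (max K15 (max 1 (max Ka (max Kb (max Kc Kd)))))) ≤ K →
      (#(SK P γ κ C m (Real.exp (K / 1600)) k) : ℝ) ≤
        Real.exp (20 * m / (Real.exp (K / 1600)) ^ 2) ∨ 3 * Real.log m ≤ K →
      (#(SK P γ κ C m K k) : ℝ) ≤ Real.exp (20 * m / K ^ 2) := by
    intro K hK hor
    have hK11 : K11 ≤ K := (le_max_left _ _).trans hK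
    have hq1 := (le_max_right _ _).trans hK
    have hK12 : K12 ≤ K := (le_max_left _ _).trans hq1
    have hq2 := (le_max_right _ _).trans hq1
    have hK15 : K15 ≤ K := (le_max_left _ _).trans hq2
    have hq3 := (le_max_right _ _).trans hq2
    have hK1 : (1 : ℝ) ≤ K := (le_max_left _ _).trans hq3
    have hq4 := (le_max_right _ _).trans hq3
    have hKa' := hKa K ((le_max_left _ _).trans hq4)
    have hq5 := (le_max_right _ _).trans hq4
    have hKb' := hKb K ((le_max_left _ _).trans hq5)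
    have hq6 := (le_max_right _ _).trans hq5
    have hKc' := hKc K ((le_max_left _ _).trans hq6)
    have hKd' := hKd K ((le_max_right _ _).trans hq6)
    have hK0 : 0 < K := by linarith
    have e1 : Real.exp (-K) ≤ 1 / K ^ 2 := by
      rw [Real.exp_neg, ← one_div]
      refine one_div_le_one_div_of_le (by positivity) ?_
      have : K ^ 2 ≤ K ^ 3 := pow_le_pow_right₀ hK1 (by norm_num)
      rw [one_mul, one_mul] at hKd'
      exact this.trans hKd'
    have e2 : 4 * K * (m / K ^ 4) ≤ 4 * (m / K ^ 2) := by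
      have h1 : 4 * K * (m / K ^ 4) = 4 * (m / K ^ 3) := by field_simp
      rw [h1]
      have h2 : K ^ 2 ≤ K ^ 3 := pow_le_pow_right₀ hK1 (by norm_num)
      have := div_le_div_of_nonneg_left hm0.le (by positivity : 0 < K ^ 2) h2
      linarith
    have e3 : 2 * m * Real.exp (-K) ≤ 2 * (m / K ^ 2) := by
      have := mul_le_mul_of_nonneg_left e1 (show 0 ≤ 2 * m by positivity)
      calc _ ≤ 2 * m * (1 / K ^ 2) := this
        _ = _ := by ring
    -- fibre bound
    have hfibre : ∀ (Q : Finset ι) (F : Finset (Finset ι)), (#Q : ℝ) ≤ m * Real.exp (2 * K) →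
        (∀ S ∈ F, ∃ W : Finset ι, S ⊆ W ∧ (#W : ℝ) ≤ m / K ^ 4 ∧ Rooted (Adj P K) Q W) →
        (#F : ℝ) ≤ Real.exp (6 * (m / K ^ 2)) := by
      intro Q F hQ hF
      refine (h15 K hK15 ι P Q (m / K ^ 4) m F hP (by positivity) hQ hF).trans ?_
      exact Real.exp_le_exp.2 (by linarith)
    have hunf : ∀ S ∈ SK P γ κ C m K k, ∃ (Z : Finset ι) (g : ι → ℝ), Piece P γ κ C m Z g ∧
        k ∈ Z ∧ S ⊆ Z ∧ (#S : ℝ) ≤ m / K ^ 100 := by
      intro S hS
      unfold SK at hS
      exact (mem_filter.1 hS).2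
    rcases le_or_gt (3 * Real.log m) K with htop | hlow
    · -- top level
      have h1 : (#({k} : Finset ι) : ℝ) ≤ m * Real.exp (2 * K) := by
        rw [card_singleton]
        have h2 : (1 : ℝ) ≤ Real.exp (2 * K) := Real.one_le_exp (by positivity)
        push_cast
        nlinarith
      refine (hfibre {k} (SK P γ κ C m K k) h1 ?_).trans ?_
      · intro S hS
        obtain ⟨Z, g, hpc, hk, hSZ, hSc⟩ := hunf S hS
        exact h12 K hK12 ι P Z S g m k hP hm hpc htop hSZ hk hSc
      · refine Real.exp_le_exp.2 ?_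
        have : (0 : ℝ) ≤ m / K ^ 2 := by positivity
        have h3 : 20 * m / K ^ 2 = 20 * (m / K ^ 2) := by ring
        rw [h3]; linarith
    · have hSK' : (#(SK P γ κ C m (Real.exp (K / 1600)) k) : ℝ) ≤
          Real.exp (20 * m / (Real.exp (K / 1600)) ^ 2) := by
        rcases hor with h | h
        · exact h
        · exact absurd h (not_le.2 hlow)
      set K' : ℝ := Real.exp (K / 1600) with hK'
      have hK'100 : K' ^ 100 = Real.exp (K / 16) := by
        rw [hK', ← Real.exp_nat_mul]; congr 1; push_cast; ring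
      have hK'2 : K' ^ 2 = Real.exp (1 / 800 * K) := by
        rw [hK', ← Real.exp_nat_mul]; congr 1; push_cast; ring
      set N : ℕ := ⌈64 * K⌉₊ with hN
      have hN2 : (N : ℝ) ≤ 64 * K + 1 := (Nat.ceil_lt_add_one (by positivity)).le
      set B : ℝ := m * Real.exp (-(K / 16)) with hB
      have hB0 : 0 ≤ B := by positivity
      have hBK' : B = m / K' ^ 100 := by
        rw [hB, hK'100, Real.exp_neg]
        exact (div_eq_mul_inv _ _).symm
      -- data
      have hstep : ∀ S : Finset ι, ∃ b : (Fin N → ι → ℤ) × Finset ι, S ∈ SK P γ κ C m K k →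
          b.2 ∈ SK P γ κ C m K' k ∧ (∀ i k, b.1 i k ≠ 0 → k ∈ b.2) ∧ (#b.2 : ℝ) ≤ B ∧
          ∑ i, lc (b.1 i) ≤ B ∧
          (#(b.2 ∪ univ.biUnion (fun i => vis P K (b.1 i))) : ℝ) ≤ m * Real.exp (2 * K) ∧
          ∃ W : Finset ι, S ⊆ W ∧ (#W : ℝ) ≤ m / K ^ 4 ∧
            Rooted (Adj P K) (b.2 ∪ univ.biUnion (fun i => vis P K (b.1 i))) W := by
        intro S
        by_cases hS : S ∈ SK P γ κ C m K k
        · obtain ⟨Z, g, hpc, hk, hSZ, hSc⟩ := hunf S hS
          obtain ⟨z, S', W, a1, a2, a3, a4, a5, a6, a7, a8⟩ :=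
            h11 K hK11 ι P Z S g m hP hm hpc hlow hSZ hSc
          refine ⟨(z, S'), fun _ => ⟨?_, a2, a3, a4, a5, W, a6, a7, a8⟩⟩
          unfold SK
          rw [mem_filter]
          refine ⟨mem_univ _, Z, g, hpc, hk, a1, ?_⟩
          rw [← hBK']; exact a3
        · exact ⟨(0, ∅), fun h => absurd h hS⟩
      choose dt hdt using hstep
      set T : Finset ((Fin N → ι → ℤ) × Finset ι) := (SK P γ κ C m K k).image dt with hT
      have hTp : ∀ b ∈ T, b.2 ∈ SK P γ κ C m K' k ∧ (∀ i k, b.1 i k ≠ 0 → k ∈ b.2) ∧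
          (#b.2 : ℝ) ≤ B ∧ ∑ i, lc (b.1 i) ≤ B ∧
          (#(b.2 ∪ univ.biUnion (fun i => vis P K (b.1 i))) : ℝ) ≤ m * Real.exp (2 * K) := by
        intro b hb
        rw [hT, mem_image] at hb
        obtain ⟨S, hS, rfl⟩ := hb
        obtain ⟨c1, c2, c3, c4, c5, _⟩ := hdt S hS
        exact ⟨c1, c2, c3, c4, c5⟩
      set zb : ℝ := Real.exp (2 * ((N : ℝ) * B)) * Real.exp (3 * B) with hzb
      have hTcard : (#T : ℝ) ≤ Real.exp (20 * m / K' ^ 2) * zb := by
        refine card_le_of_fibre T Prod.snd (SK P γ κ C m K' k) _ zb (fun b hb => (hTp b hb).1)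
          hSK' (by positivity) ?_
        intro S' _
        have hinj : Set.InjOn Prod.fst
            ((T.filter (fun b => b.2 = S') : Finset ((Fin N → ι → ℤ) × Finset ι)) :
              Set ((Fin N → ι → ℤ) × Finset ι)) := by
          intro b hb c hc h
          simp only [coe_filter, Set.mem_ofPred_eq] at hb hc
          exact Prod.ext h (hb.2.trans hc.2.symm)
        rw [← card_image_of_injOn hinj]
        by_cases hcase : (#S' : ℝ) ≤ B
        · refine (card_tuples h14 N S' B _ ?_).trans ?_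
          · intro z hz
            rw [mem_image] at hz
            obtain ⟨b, hb, rfl⟩ := hz
            obtain ⟨hb1, rfl⟩ := mem_filter.1 hb
            obtain ⟨_, c2, _, c4, _⟩ := hTp b hb1
            refine ⟨?_, c4⟩
            intro i j hj
            by_contra hne
            exact hj (c2 i j hne)
          · rw [hzb]
            refine mul_le_mul_of_nonneg_right (Real.exp_le_exp.2 ?_) (Real.exp_pos _).le
            have := mul_le_mul_of_nonneg_left hcase (show (0 : ℝ) ≤ (N : ℝ) by positivity)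
            linarith
        · have hempty : T.filter (fun b => b.2 = S') = ∅ := by
            rw [filter_eq_empty_iff]
            intro b hb heq
            exact hcase (heq ▸ (hTp b hb).2.2.1)
          rw [hempty]
          simp only [image_empty, card_empty, Nat.cast_zero]
          positivity
      have hcard : (#(SK P γ κ C m K k) : ℝ) ≤
          (Real.exp (20 * m / K' ^ 2) * zb) * Real.exp (6 * (m / K ^ 2)) := by
        refine card_le_of_fibre (SK P γ κ C m K k) dt T _ _
          (fun S hS => by rw [hT]; exact mem_image_of_mem _ hS) hTcard (Real.exp_pos _).le ?_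
        intro b hb
        refine hfibre (b.2 ∪ univ.biUnion (fun i => vis P K (b.1 i))) _ (hTp b hb).2.2.2.2 ?_
        intro S hS
        obtain ⟨hS1, rfl⟩ := mem_filter.1 hS
        exact (hdt S hS1).2.2.2.2.2
      refine hcard.trans ?_
      rw [hzb, ← Real.exp_add, ← Real.exp_add, ← Real.exp_add]
      refine Real.exp_le_exp.2 ?_
      -- numbers
      have n1 : 20 * m / K' ^ 2 ≤ 2 * (m / K ^ 2) := by
        rw [hK'2]
        have h1 : 10 * K ^ 2 ≤ Real.exp (1 / 800 * K) := by
          have : K ^ 2 ≤ K ^ 3 := pow_le_pow_right₀ hK1 (by norm_num)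
          linarith
        have h2 := div_le_div_of_nonneg_left (show 0 ≤ 20 * m by positivity)
          (show (0 : ℝ) < 10 * K ^ 2 by positivity) h1
        refine h2.trans (le_of_eq ?_)
        field_simp
        norm_num
      have n2 : 2 * ((N : ℝ) * B) + 3 * B ≤ 2 * (m / K ^ 2) := by
        have h1 : 2 * ((N : ℝ) * B) + 3 * B ≤ 200 * K * B := by
          have : (N : ℝ) * B ≤ (64 * K + 1) * B := mul_le_mul_of_nonneg_right hN2 hB0
          nlinarith
        have h2 : 200 * K * Real.exp (-(K / 16)) ≤ 1 / K ^ 2 := by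
          rw [Real.exp_neg, le_div_iff₀ (by positivity), ← div_eq_mul_inv, div_mul_eq_mul_div,
            div_le_one (Real.exp_pos _)]
          calc 200 * K * K ^ 2 = 200 * K ^ 3 := by ring
            _ ≤ Real.exp (1 / 16 * K) := hKc'
            _ = Real.exp (K / 16) := by congr 1; ring
        have h3 : 200 * K * B ≤ 1 * (m / K ^ 2) := by
          have := mul_le_mul_of_nonneg_left h2 hm0.le
          rw [hB]
          calc _ = m * (200 * K * Real.exp (-(K / 16))) := by ring
            _ ≤ m * (1 / K ^ 2) := this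
            _ = _ := by ring
        have h4 : (0 : ℝ) ≤ m / K ^ 2 := by positivity
        linarith
      have h3 : 20 * m / K ^ 2 = 20 * (m / K ^ 2) := by ring
      have h4 : (0 : ℝ) ≤ m / K ^ 2 := by positivity
      rw [h3]
      linarith
  induction n with
  | zero =>
    intro K hK h
    rw [pow_zero, one_mul] at h
    exact hmain K hK (Or.inr h)
  | succ n ih =>
    intro K hK h
    have hK1 : (1 : ℝ) ≤ K := by
      refine le_trans ?_ hK
      exact (le_max_left _ _).trans ((le_max_right _ _).trans ((le_max_right _ _).trans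
        (le_max_right _ _)))
    have hKa' := hKa K (by
      refine le_trans ?_ hK
      exact (le_max_left _ _).trans ((le_max_right _ _).trans ((le_max_right _ _).trans
        ((le_max_right _ _).trans (le_max_right _ _)))))
    have h2K : 2 * K ≤ Real.exp (K / 1600) := by
      have h1 : K ≤ K ^ 3 := le_self_pow₀ hK1 (by norm_num)
      have h2 : Real.exp (1 / 1600 * K) = Real.exp (K / 1600) := by congr 1; ring
      rw [h2] at hKa'
      linarith
    refine hmain K hK (Or.inl (ih (Real.exp (K / 1600)) ?_ ?_))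
    · linarith
    · refine h.trans ?_
      rw [pow_succ]
      have : (0 : ℝ) ≤ 2 ^ n := by positivity
      nlinarith

end

end Pool.Agent.Helper94.ZS
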