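import Pool.Agent.Helper94.ZS.Basic

/-!
# Zonotope signing, module 8: the samples of one level
-/

namespace Pool.Agent.Helper94.ZS

open Finset Pool.Agent.Helper38.ZS
open scoped Classical

noncomputable section

/-- growth of `exp` against a linear function -/
theorem exp_big (a b : ℝ) (ha : 0 < a) : ∃ K0 : ℝ, ∀ K : ℝ, K0 ≤ K → b ≤ Real.exp (a * K) := by
  refine ⟨b / a, fun K hK => ?_⟩
  have h1 : b ≤ a * K := by
    have := mul_le_mul_of_nonneg_left hK ha.le
    rwa [mul_div_cancel₀ _ ha.ne'] at this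
  have h2 := Real.add_one_le_exp (a * K)
  linarith

/-- `K * b ≤ exp (a K)` eventually -/
theorem lin_exp (a b : ℝ) (ha : 0 < a) (hb : 0 ≤ b) :
    ∃ K0 : ℝ, ∀ K : ℝ, K0 ≤ K → b * K ≤ Real.exp (a * K) := by
  refine ⟨4 * b / a ^ 2, fun K hK => ?_⟩
  have hK0 : 0 ≤ K := le_trans (by positivity) hK
  have h1 := Real.quadratic_le_exp_of_nonneg (x := a * K) (by positivity)
  have h3 : 4 * b ≤ a ^ 2 * K := by
    have := mul_le_mul_of_nonneg_left hK (sq_nonneg a)
    rwa [mul_div_cancel₀ _ (by positivity)] at this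
  have h4 : b * K ≤ (a * K) ^ 2 / 2 := by
    have : 4 * b * K ≤ a ^ 2 * K * K := mul_le_mul_of_nonneg_right h3 hK0
    nlinarith [mul_nonneg hb hK0]
  have h5 : 0 ≤ a * K := by positivity
  linarith

theorem st_SAMPLES (h7 : ST_SAMPLE) : ST_SAMPLES := by
  intro γ κ C hγ hγ1 hκ hκ1 hC
  obtain ⟨K7, h7⟩ := h7 γ κ C hγ hγ1 hκ hκ1 hC
  obtain ⟨Ka, hKa⟩ := exp_big (5 / 24) (2 / γ + 1) (by norm_num)
  obtain ⟨Kb, hKb⟩ := lin_exp (7 / 144) 1000 (by norm_num) (by norm_num)
  obtain ⟨Kc, hKc⟩ := exp_big (1 / 4) (2 * (1 / γ + 3)) (by norm_num)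
  refine ⟨max K7 (max 1 (max Ka (max Kb Kc))), ?_⟩
  intro K hK ι _ P Z S g m hP hm hpc hKm hSZ hScard
  have hK7 : K7 ≤ K := (le_max_left _ _).trans hK
  have hK' := (le_max_right _ _).trans hK
  have hK1 : (1 : ℝ) ≤ K := (le_max_left _ _).trans hK'
  have hK'' := (le_max_right _ _).trans hK'
  have hKa' := hKa K ((le_max_left _ _).trans hK'')
  have hK''' := (le_max_right _ _).trans hK''
  have hKb' := hKb K ((le_max_left _ _).trans hK''')
  have hKc' := hKc K ((le_max_right _ _).trans hK''')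
  have hm0 : 0 < m := by linarith
  -- parameters
  set e8 : ℝ := Real.exp (K / 8) with he8
  have he8pos : 0 < e8 := Real.exp_pos _
  set Rm : ℕ := ⌈e8 / γ⌉₊ + 2 with hRm
  have hRm_ge : e8 / γ + 2 ≤ (Rm : ℝ) := by
    rw [hRm]; push_cast
    have := Nat.le_ceil (e8 / γ); linarith
  have hRm_le : (Rm : ℝ) ≤ e8 / γ + 3 := by
    rw [hRm]; push_cast
    have := Nat.ceil_lt_add_one (a := e8 / γ) (by positivity); linarith
  -- the family
  set F0 : Finset (ι × ℕ) := (S ×ˢ range Rm).filter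
    (fun j => Detectable P K Z g (ball P K Z j.1 j.2)) with hF0
  have hball : ∀ s ∈ S, ∀ r, ball P K Z s r ⊆ Z := fun s hs r => ball_subset P K (hSZ hs) r
  have hm3 : Real.exp (K / 3) < m := by
    have h1 : K / 3 < Real.log m := by linarith
    calc Real.exp (K / 3) < Real.exp (Real.log m) := Real.exp_lt_exp.2 h1
      _ = m := Real.exp_log hm0
  have hfam : ∀ j ∈ F0, ball P K Z j.1 j.2 ⊆ Z ∧ (Real.exp (K / 8) ≤ l1 g (ball P K Z j.1 j.2) ∨
          (l1 g (ball P K Z j.1 j.2) < Real.exp (K / 8) ∧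
            κ * γ ≤ II P g (ball P K Z j.1 j.2) (Z \ ball P K Z j.1 j.2) ∧
            near P K Z g (ball P K Z j.1 j.2) ≤
              II P g (ball P K Z j.1 j.2) (Z \ ball P K Z j.1 j.2) / 8)) := by
    intro j hj
    rw [hF0, mem_filter, mem_product] at hj
    obtain ⟨⟨hj1, _⟩, hdet⟩ := hj
    have hsub := hball j.1 hj1 j.2
    refine ⟨hsub, ?_⟩
    rcases le_or_gt (Real.exp (K / 8)) (l1 g (ball P K Z j.1 j.2)) with hh | hh
    · exact Or.inl hh
    · right
      refine ⟨hh, ?_, ?_⟩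
      · refine link_low hγ hγ1 hκ hpc.low hpc.link hsub ⟨_, self_mem_ball P K Z j.1 j.2⟩ ?_
        intro heq
        have h1 : nu g Z ≤ l1 g Z / γ := nu_le_l1 hγ hγ1 hpc.low
        have h2 : l1 g Z < e8 := by rw [← heq]; exact hh
        have h3 : l1 g Z / γ < e8 / γ := div_lt_div_of_pos_right h2 hγ
        have h4 := hpc.nul
        have h5 : Real.exp (K / 3) = Real.exp (5 / 24 * K) * e8 := by
          rw [he8, ← Real.exp_add]; congr 1; ring
        have h6 : (2 / γ + 1) * e8 ≤ Real.exp (K / 3) := by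
          rw [h5]; exact mul_le_mul_of_nonneg_right hKa' he8pos.le
        have h7 : 2 * (e8 / γ) = 2 / γ * e8 := by ring
        nlinarith
      · rcases hdet with hd | hd
        · exact absurd hd (not_le.2 hh)
        · exact hd
  -- the selector
  have hsel : ∀ F : Finset (ι × ℕ), F ⊆ F0 → ∃ z : ι → ℤ, (∀ k, k ∉ Z → z k = 0) ∧
      lc z ≤ m * Real.exp (-(K / 9)) ∧
      (#(vis P K z) : ℝ) ≤ m * Real.exp (3 * K / 2) ∧
      (#(F.filter (fun j => ¬ Det P K z (ball P K Z j.1 j.2))) : ℝ) ≤ 63 / 64 * (#F : ℝ) :=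
    fun F hF => h7 K hK7 ι P Z g m hP hm hpc (ι × ℕ) F (fun j => ball P K Z j.1 j.2)
      (fun j hj => hfam j (hF hj))
  have hsel' : ∀ F : Finset (ι × ℕ), ∃ z : ι → ℤ, F ⊆ F0 → (∀ k, k ∉ Z → z k = 0) ∧
      lc z ≤ m * Real.exp (-(K / 9)) ∧
      (#(vis P K z) : ℝ) ≤ m * Real.exp (3 * K / 2) ∧
      (#(F.filter (fun j => ¬ Det P K z (ball P K Z j.1 j.2))) : ℝ) ≤ 63 / 64 * (#F : ℝ) := by
    intro F
    by_cases hF : F ⊆ F0
    · obtain ⟨z, hz⟩ := hsel F hF
      exact ⟨z, fun _ => hz⟩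
    · exact ⟨0, fun h => absurd h hF⟩
  choose sel hselp using hsel'
  let Fs : ℕ → Finset (ι × ℕ) := fun n => Nat.rec F0
    (fun _ F => F.filter (fun j => ¬ Det P K (sel F) (ball P K Z j.1 j.2))) n
  have hFs0 : Fs 0 = F0 := rfl
  have hFsS : ∀ n, Fs (n + 1) =
      (Fs n).filter (fun j => ¬ Det P K (sel (Fs n)) (ball P K Z j.1 j.2)) := fun n => rfl
  have hFssub : ∀ n, Fs n ⊆ F0 := by
    intro n
    induction n with
    | zero => rw [hFs0]
    | succ n ih => rw [hFsS]; exact (filter_subset _ _).trans ih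
  have hFscard : ∀ n, (#(Fs n) : ℝ) ≤ (63 / 64) ^ n * (#F0 : ℝ) := by
    intro n
    induction n with
    | zero => rw [hFs0]; simp
    | succ n ih =>
      rw [hFsS]
      refine ((hselp (Fs n) (hFssub n)).2.2.2).trans ?_
      rw [pow_succ]
      nlinarith
  -- detected or surviving
  have hdet : ∀ n, ∀ j ∈ F0, j ∈ Fs n ∨ ∃ i < n, Det P K (sel (Fs i)) (ball P K Z j.1 j.2) := by
    intro n
    induction n with
    | zero => intro j hj; exact Or.inl hj
    | succ n ih =>
      intro j hj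
      rcases ih j hj with h | ⟨i, hi, h⟩
      · by_cases hd : Det P K (sel (Fs n)) (ball P K Z j.1 j.2)
        · exact Or.inr ⟨n, Nat.lt_succ_self n, hd⟩
        · left; rw [hFsS, mem_filter]; exact ⟨h, hd⟩
      · exact Or.inr ⟨i, by omega, h⟩
  set N : ℕ := ⌈64 * K⌉₊ with hN
  have hN1 : 64 * K ≤ (N : ℝ) := Nat.le_ceil _
  have hN2 : (N : ℝ) ≤ 64 * K + 1 := (Nat.ceil_lt_add_one (by positivity)).le
  set z : Fin N → ι → ℤ := fun i => sel (Fs i) with hz
  set S1 : Finset ι := univ.biUnion (fun i : Fin N => univ.filter (fun k => z i k ≠ 0)) with hS1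
  set S2 : Finset ι := (Fs N).image Prod.fst with hS2
  have hzp : ∀ i : Fin N, (∀ k, k ∉ Z → z i k = 0) ∧ lc (z i) ≤ m * Real.exp (-(K / 9)) ∧
      (#(vis P K (z i)) : ℝ) ≤ m * Real.exp (3 * K / 2) := by
    intro i
    have := hselp (Fs i) (hFssub i)
    exact ⟨this.1, this.2.1, this.2.2.1⟩
  have hlcsum : ∑ i, lc (z i) ≤ (64 * K + 1) * (m * Real.exp (-(K / 9))) := by
    calc ∑ i, lc (z i) ≤ ∑ _i : Fin N, m * Real.exp (-(K / 9)) :=
          sum_le_sum fun i _ => (hzp i).2.1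
      _ = (N : ℝ) * (m * Real.exp (-(K / 9))) := by simp
      _ ≤ _ := mul_le_mul_of_nonneg_right hN2 (by positivity)
  have hF0card : (#F0 : ℝ) ≤ m * (e8 / γ + 3) := by
    have h1 : #F0 ≤ #S * Rm := by
      rw [hF0]
      refine (card_filter_le _ _).trans ?_
      rw [card_product, card_range]
    have h2 : (#S : ℝ) ≤ m := by
      refine hScard.trans (div_le_self hm0.le (one_le_pow₀ hK1))
    calc (#F0 : ℝ) ≤ (#S : ℝ) * (Rm : ℝ) := by exact_mod_cast h1
      _ ≤ m * (e8 / γ + 3) := mul_le_mul h2 hRm_le (by positivity) hm0.le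
  have hpow : ((63 : ℝ) / 64) ^ N ≤ Real.exp (-K) := by
    have h1 : (63 : ℝ) / 64 ≤ Real.exp (-(1 / 64)) := by
      have := Real.add_one_le_exp (-(1 / 64) : ℝ)
      linarith
    calc ((63 : ℝ) / 64) ^ N ≤ (Real.exp (-(1 / 64))) ^ N := pow_le_pow_left₀ (by norm_num) h1 N
      _ = Real.exp (-((N : ℝ) / 64)) := by rw [← Real.exp_nat_mul]; congr 1; ring
      _ ≤ Real.exp (-K) := Real.exp_le_exp.2 (by linarith)
  have hFNcard : (#(Fs N) : ℝ) ≤ Real.exp (-K) * (m * (e8 / γ + 3)) :=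
    (hFscard N).trans (mul_le_mul hpow hF0card (by positivity) (Real.exp_pos _).le)
  have hlin : ∀ c : ℝ, 0 ≤ c → c ≤ 1000 * K → c * Real.exp (-(K / 9)) ≤ Real.exp (-(K / 16)) := by
    intro c _ hc
    have h1 : Real.exp (-(K / 16)) = Real.exp (7 / 144 * K) * Real.exp (-(K / 9)) := by
      rw [← Real.exp_add]; congr 1; ring
    rw [h1]
    exact mul_le_mul_of_nonneg_right (hc.trans hKb') (Real.exp_pos _).le
  have hFN2 : (#(Fs N) : ℝ) ≤ m * Real.exp (-(K / 16)) / 2 := by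
    refine hFNcard.trans ?_
    have h1 : Real.exp (-K) = Real.exp (-(K / 8)) * Real.exp (-(7 / 8 * K)) := by
      rw [← Real.exp_add]; congr 1; ring
    have h2 : Real.exp (-(K / 8)) * e8 = 1 := by
      rw [he8, ← Real.exp_add]; simp
    have h3 : Real.exp (-(K / 8)) ≤ 1 := Real.exp_le_one_iff.2 (by linarith)
    have h4 : Real.exp (-(K / 8)) * (e8 / γ + 3) ≤ 1 / γ + 3 := by
      have h5 : Real.exp (-(K / 8)) * (e8 / γ + 3) =
          (Real.exp (-(K / 8)) * e8) / γ + 3 * Real.exp (-(K / 8)) := by ring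
      rw [h5, h2]; linarith
    have h5 : Real.exp (-(7 / 8 * K)) * (2 * (1 / γ + 3)) ≤ Real.exp (-(K / 16)) := by
      have h6 : Real.exp (-(7 / 8 * K)) * Real.exp (1 / 4 * K) ≤ Real.exp (-(K / 16)) := by
        rw [← Real.exp_add]; exact Real.exp_le_exp.2 (by linarith)
      exact (mul_le_mul_of_nonneg_left hKc' (Real.exp_pos _).le).trans h6
    have h6 : Real.exp (-K) * (m * (e8 / γ + 3)) =
        m * (Real.exp (-(7 / 8 * K)) * (Real.exp (-(K / 8)) * (e8 / γ + 3))) := by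
      rw [h1]; ring
    rw [h6, mul_div_assoc]
    refine mul_le_mul_of_nonneg_left ?_ hm0.le
    have h7 := mul_le_mul_of_nonneg_left h4 (Real.exp_pos (-(7 / 8 * K))).le
    linarith
  refine ⟨z, S1 ∪ S2, ?_, ?_, ?_, ?_, ?_, ?_⟩
  · refine union_subset ?_ ?_
    · intro k hk
      rw [hS1, mem_biUnion] at hk
      obtain ⟨i, _, hk⟩ := hk
      by_contra hkZ
      exact (mem_filter.1 hk).2 ((hzp i).1 k hkZ)
    · intro k hk
      rw [hS2, mem_image] at hk
      obtain ⟨j, hj, rfl⟩ := hk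
      have := hFssub N hj
      rw [hF0, mem_filter, mem_product] at this
      exact hSZ this.1.1
  · intro i k hk
    refine mem_union_left _ ?_
    rw [hS1, mem_biUnion]
    exact ⟨i, mem_univ _, mem_filter.2 ⟨mem_univ _, hk⟩⟩
  · have h1 : (#S1 : ℝ) ≤ 2 * ∑ i, lc (z i) := by
      calc (#S1 : ℝ) ≤ ((∑ i : Fin N, #(univ.filter (fun k => z i k ≠ 0)) : ℕ) : ℝ) := by
            exact_mod_cast card_biUnion_le
        _ = ∑ i : Fin N, (#(univ.filter (fun k => z i k ≠ 0)) : ℝ) := by push_cast; rfl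
        _ ≤ ∑ i : Fin N, 2 * lc (z i) := sum_le_sum fun i _ => card_supp_le (z i)
        _ = _ := by rw [mul_sum]
    have h2 : (#S2 : ℝ) ≤ (#(Fs N) : ℝ) := by exact_mod_cast card_image_le
    have h3 : (#(S1 ∪ S2) : ℝ) ≤ #S1 + #S2 := by exact_mod_cast card_union_le _ _
    have h4 := hlin (4 * (64 * K + 1)) (by positivity) (by linarith)
    have h5 : 4 * (64 * K + 1) * (m * Real.exp (-(K / 9))) ≤ m * Real.exp (-(K / 16)) := by
      have := mul_le_mul_of_nonneg_left h4 hm0.le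
      calc _ = m * (4 * (64 * K + 1) * Real.exp (-(K / 9))) := by ring
        _ ≤ _ := this
    linarith
  · have h4 := hlin (64 * K + 1) (by positivity) (by linarith)
    have := mul_le_mul_of_nonneg_left h4 hm0.le
    refine hlcsum.trans ?_
    calc _ = m * ((64 * K + 1) * Real.exp (-(K / 9))) := by ring
      _ ≤ _ := this
  · exact fun i => (hzp i).2.2
  · intro s hs
    -- small radii
    have hsmall : ∀ r < Rm, Disjoint (ball P K Z s r)
        ((S1 ∪ S2) ∪ univ.biUnion (fun i => vis P K (z i))) →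
        ¬ Detectable P K Z g (ball P K Z s r) := by
      intro r hr hdisj hDet
      have hj : (s, r) ∈ F0 := by
        rw [hF0, mem_filter, mem_product]
        exact ⟨⟨hs, mem_range.2 hr⟩, hDet⟩
      rcases hdet N (s, r) hj with h | ⟨i, hi, k, hk, hk2⟩
      · have h1 : s ∈ S2 := by
          rw [hS2, mem_image]; exact ⟨(s, r), h, rfl⟩
        exact disjoint_left.1 hdisj (self_mem_ball P K Z s r)
          (mem_union_left _ (mem_union_right _ h1))
      · rcases hk2 with hk2 | hk2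
        · refine disjoint_left.1 hdisj hk (mem_union_left _ (mem_union_left _ ?_))
          rw [hS1, mem_biUnion]
          exact ⟨⟨i, hi⟩, mem_univ _, mem_filter.2 ⟨mem_univ _, hk2⟩⟩
        · refine disjoint_left.1 hdisj hk (mem_union_right _ ?_)
          rw [mem_biUnion]
          exact ⟨⟨i, hi⟩, mem_univ _, hk2⟩
    intro r hdisj
    rcases lt_or_ge r Rm with hr | hr
    · exact hsmall r hr hdisj
    · have hsub : ∀ r' ≤ r, Disjoint (ball P K Z s r')
          ((S1 ∪ S2) ∪ univ.biUnion (fun i => vis P K (z i))) := fun r' hr' =>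
        disjoint_of_subset_left (ball_mono P K Z s hr') hdisj
      have hR1 : Rm - 1 < Rm := by omega
      have hcard : #(ball P K Z s (Rm - 1)) ≤ Rm - 1 := by
        have h1 := hsmall (Rm - 1) hR1 (hsub _ (by omega))
        have h2 : l1 g (ball P K Z s (Rm - 1)) < e8 := by
          by_contra hcon
          exact h1 (Or.inl (not_lt.1 hcon))
        have h3 : (#(ball P K Z s (Rm - 1)) : ℝ) ≤ l1 g (ball P K Z s (Rm - 1)) / γ :=
          card_le_l1 hγ fun i hi => hpc.low i (hball s hs _ hi)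
        have h4 : l1 g (ball P K Z s (Rm - 1)) / γ < e8 / γ := div_lt_div_of_pos_right h2 hγ
        have h5 : (#(ball P K Z s (Rm - 1)) : ℝ) < ((Rm - 1 : ℕ) : ℝ) := by
          have : (1 : ℕ) ≤ Rm := by omega
          push_cast [Nat.cast_sub this]
          linarith
        exact_mod_cast h5.le
      obtain ⟨r0, hr0, hconst⟩ := ball_stab P K Z s hcard
      rw [hconst r (by omega)]
      exact hsmall r0 (by omega) (hsub r0 (by omega))

end

end Pool.Agent.Helper94.ZS
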