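import Pool.Agent.Helper38.ZS.Stmts

/-!
# Zonotope signing: elementary facts about balls and weights
-/

namespace Pool.Agent.Helper94.ZS

open Finset Pool.Agent.Helper38.ZS
open scoped Classical

noncomputable section

variable {ι : Type} [Fintype ι]

omit [Fintype ι] in
theorem ball_zero (P : ι → ι → ℝ) (K : ℝ) (Z : Finset ι) (s : ι) : ball P K Z s 0 = {s} := rfl

omit [Fintype ι] in
theorem ball_succ (P : ι → ι → ℝ) (K : ℝ) (Z : Finset ι) (s : ι) (r : ℕ) :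
    ball P K Z s (r + 1) = grow P K Z (ball P K Z s r) := by
  unfold ball
  rw [Function.iterate_succ_apply']

omit [Fintype ι] in
theorem subset_grow (P : ι → ι → ℝ) (K : ℝ) (Z B : Finset ι) : B ⊆ grow P K Z B :=
  subset_union_left

omit [Fintype ι] in
theorem bd_subset (P : ι → ι → ℝ) (K : ℝ) (Z B : Finset ι) : bd P K Z B ⊆ Z \ B :=
  filter_subset _ _

omit [Fintype ι] in
theorem grow_subset (P : ι → ι → ℝ) (K : ℝ) {Z B : Finset ι} (h : B ⊆ Z) :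
    grow P K Z B ⊆ Z :=
  union_subset h ((bd_subset P K Z B).trans sdiff_subset)

omit [Fintype ι] in
theorem ball_mono (P : ι → ι → ℝ) (K : ℝ) (Z : Finset ι) (s : ι) {r r' : ℕ} (h : r ≤ r') :
    ball P K Z s r ⊆ ball P K Z s r' := by
  induction r', h using Nat.le_induction with
  | base => exact Subset.refl _
  | succ n _ ih => rw [ball_succ]; exact ih.trans (subset_grow P K Z _)

omit [Fintype ι] in
theorem self_mem_ball (P : ι → ι → ℝ) (K : ℝ) (Z : Finset ι) (s : ι) (r : ℕ) :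
    s ∈ ball P K Z s r :=
  ball_mono P K Z s (Nat.zero_le r) (by rw [ball_zero]; exact mem_singleton_self s)

omit [Fintype ι] in
theorem ball_subset (P : ι → ι → ℝ) (K : ℝ) {Z : Finset ι} {s : ι} (hs : s ∈ Z) (r : ℕ) :
    ball P K Z s r ⊆ Z := by
  induction r with
  | zero => rw [ball_zero]; exact singleton_subset_iff.2 hs
  | succ n ih => rw [ball_succ]; exact grow_subset P K ih

omit [Fintype ι] in
/-- once constant, always constant -/
theorem ball_const (P : ι → ι → ℝ) (K : ℝ) (Z : Finset ι) (s : ι) {r0 : ℕ}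
    (h : ball P K Z s (r0 + 1) = ball P K Z s r0) {r : ℕ} (hr : r0 ≤ r) :
    ball P K Z s r = ball P K Z s r0 := by
  induction r, hr using Nat.le_induction with
  | base => rfl
  | succ n _ ih => rw [ball_succ, ih, ← ball_succ, h]

omit [Fintype ι] in
/-- if the balls below radius `N` are small then the sequence is constant from some radius on -/
theorem ball_stab (P : ι → ι → ℝ) (K : ℝ) (Z : Finset ι) (s : ι) {N : ℕ}
    (hN : #(ball P K Z s N) ≤ N) :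
    ∃ r0 < N, ∀ r, r0 ≤ r → ball P K Z s r = ball P K Z s r0 := by
  by_contra hcon
  push Not at hcon
  have key : ∀ n ≤ N, n + 1 ≤ #(ball P K Z s n) := by
    intro n
    induction n with
    | zero => intro _; rw [ball_zero]; simp
    | succ n ih =>
      intro hn
      have h1 := ih (by omega)
      have h2 : ball P K Z s n ⊂ ball P K Z s (n + 1) := by
        refine (ball_mono P K Z s (Nat.le_succ n)).ssubset_of_ne ?_
        intro heq
        obtain ⟨r, hr, hne⟩ := hcon n (by omega)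
        exact hne (ball_const P K Z s heq.symm hr)
      have h3 := card_lt_card h2
      omega
  have := key N le_rfl
  omega

/-! ## weights -/

omit [Fintype ι] in
theorem nu_nonneg (g : ι → ℝ) (X : Finset ι) : 0 ≤ nu g X :=
  sum_nonneg fun _ _ => Real.rpow_nonneg (abs_nonneg _) _

omit [Fintype ι] in
theorem l1_nonneg (g : ι → ℝ) (X : Finset ι) : 0 ≤ l1 g X :=
  sum_nonneg fun _ _ => abs_nonneg _

/-- `x^p ≤ x / γ` for `x ≥ γ` -/
theorem rpow_le_div {x γ : ℝ} (hγ : 0 < γ) (hγ1 : γ ≤ 1) (hx : γ ≤ x) :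
    x ^ (19 / 20 : ℝ) ≤ x / γ := by
  have hx0 : 0 < x := lt_of_lt_of_le hγ hx
  have h1 : x ^ (19 / 20 : ℝ) = x * x ^ (-(1 / 20) : ℝ) := by
    rw [← Real.rpow_one_add' hx0.le (by norm_num)]; norm_num
  have h2 : x ^ (-(1 / 20) : ℝ) ≤ γ ^ (-(1 / 20) : ℝ) :=
    Real.rpow_le_rpow_of_nonpos hγ hx (by norm_num)
  have h3 : γ ^ (-(1 / 20) : ℝ) ≤ γ ^ (-1 : ℝ) :=
    Real.rpow_le_rpow_of_exponent_ge hγ hγ1 (by norm_num)
  have h4 : x ^ (-(1 / 20) : ℝ) ≤ γ⁻¹ := by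
    rw [← Real.rpow_neg_one γ]; exact h2.trans h3
  rw [h1, div_eq_mul_inv]
  exact mul_le_mul_of_nonneg_left h4 hx0.le

/-- `γ ≤ x^p` for `x ≥ γ` -/
theorem le_rpow_self {x γ : ℝ} (hγ : 0 < γ) (hγ1 : γ ≤ 1) (hx : γ ≤ x) :
    γ ≤ x ^ (19 / 20 : ℝ) := by
  calc γ = γ ^ (1 : ℝ) := (Real.rpow_one γ).symm
    _ ≤ γ ^ (19 / 20 : ℝ) := Real.rpow_le_rpow_of_exponent_ge hγ hγ1 (by norm_num)
    _ ≤ x ^ (19 / 20 : ℝ) := Real.rpow_le_rpow hγ.le hx (by norm_num)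

omit [Fintype ι] in
theorem nu_le_l1 {g : ι → ℝ} {X : Finset ι} {γ : ℝ} (hγ : 0 < γ) (hγ1 : γ ≤ 1)
    (hg : ∀ i ∈ X, γ ≤ |g i|) : nu g X ≤ l1 g X / γ := by
  unfold nu l1
  rw [sum_div]
  exact sum_le_sum fun i hi => rpow_le_div hγ hγ1 (hg i hi)

omit [Fintype ι] in
theorem card_le_l1 {g : ι → ℝ} {X : Finset ι} {γ : ℝ} (hγ : 0 < γ)
    (hg : ∀ i ∈ X, γ ≤ |g i|) : (#X : ℝ) ≤ l1 g X / γ := by
  rw [le_div_iff₀ hγ]
  unfold l1
  calc (#X : ℝ) * γ = ∑ _i ∈ X, γ := by rw [sum_const, nsmul_eq_mul]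
    _ ≤ _ := sum_le_sum hg

omit [Fintype ι] in
theorem card_le_nu {g : ι → ℝ} {X : Finset ι} {γ : ℝ} (hγ : 0 < γ) (hγ1 : γ ≤ 1)
    (hg : ∀ i ∈ X, γ ≤ |g i|) : (#X : ℝ) ≤ nu g X / γ := by
  rw [le_div_iff₀ hγ]
  unfold nu
  calc (#X : ℝ) * γ = ∑ _i ∈ X, γ := by rw [sum_const, nsmul_eq_mul]
    _ ≤ _ := sum_le_sum fun i hi => le_rpow_self hγ hγ1 (hg i hi)

omit [Fintype ι] in
theorem nu_mono {g : ι → ℝ} {X Y : Finset ι} (h : X ⊆ Y) : nu g X ≤ nu g Y :=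
  sum_le_sum_of_subset_of_nonneg h fun _ _ _ => Real.rpow_nonneg (abs_nonneg _) _

omit [Fintype ι] in
theorem le_nu {g : ι → ℝ} {X : Finset ι} {γ : ℝ} (hγ : 0 < γ)
    (hg : ∀ i ∈ X, γ ≤ |g i|) (hX : X.Nonempty) : γ ^ (19 / 20 : ℝ) ≤ nu g X := by
  obtain ⟨i, hi⟩ := hX
  calc γ ^ (19 / 20 : ℝ) ≤ |g i| ^ (19 / 20 : ℝ) :=
        Real.rpow_le_rpow hγ.le (hg i hi) (by norm_num)
    _ ≤ nu g X := single_le_sum (f := fun i => |g i| ^ (19 / 20 : ℝ))
        (fun _ _ => Real.rpow_nonneg (abs_nonneg _) _) hi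

omit [Fintype ι] in
theorem le_l1 {g : ι → ℝ} {X : Finset ι} {γ : ℝ}
    (hg : ∀ i ∈ X, γ ≤ |g i|) (hX : X.Nonempty) : γ ≤ l1 g X := by
  obtain ⟨i, hi⟩ := hX
  exact (hg i hi).trans (single_le_sum (f := fun i => |g i|) (fun _ _ => abs_nonneg _) hi)

omit [Fintype ι] in
/-- linking gives interaction at least `κ γ` -/
theorem link_low {P : ι → ι → ℝ} {γ κ : ℝ} {Z : Finset ι} {g : ι → ℝ} (hγ : 0 < γ) (hγ1 : γ ≤ 1)
    (hκ : 0 < κ) (hg : ∀ i ∈ Z, γ ≤ |g i|) (hl : Link P κ Z g) {B : Finset ι} (hB : B ⊆ Z)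
    (hBn : B.Nonempty) (hBZ : B ≠ Z) : κ * γ ≤ II P g B (Z \ B) := by
  refine le_trans ?_ (hl B hB hBn hBZ)
  have h1 : γ ^ (19 / 20 : ℝ) ≤ nu g B := le_nu hγ (fun i hi => hg i (hB hi)) hBn
  have hne : (Z \ B).Nonempty := by
    rw [sdiff_nonempty]; intro h; exact hBZ (Subset.antisymm hB h)
  have h2 : γ ^ (19 / 20 : ℝ) ≤ nu g (Z \ B) :=
    le_nu hγ (fun i hi => hg i (sdiff_subset hi)) hne
  have h3 : γ ^ (19 / 20 : ℝ) ≤ min (nu g B) (nu g (Z \ B)) := le_min h1 h2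
  have h4 : γ ≤ (γ ^ (19 / 20 : ℝ)) ^ (19 / 20 : ℝ) := by
    rw [← Real.rpow_mul hγ.le]
    calc γ = γ ^ (1 : ℝ) := (Real.rpow_one γ).symm
      _ ≤ _ := Real.rpow_le_rpow_of_exponent_ge hγ hγ1 (by norm_num)
  exact mul_le_mul_of_nonneg_left (h4.trans (Real.rpow_le_rpow
    (Real.rpow_nonneg hγ.le _) h3 (by norm_num))) hκ.le

/-- the number of nonzero entries is at most twice the cost -/
theorem card_supp_le (z : ι → ℤ) : (#(univ.filter (fun k => z k ≠ 0)) : ℝ) ≤ 2 * lc z := by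
  unfold lc
  have h1 : ∀ k, 0 ≤ Real.log (1 + |(z k : ℝ)|) := fun k =>
    Real.log_nonneg (by have := abs_nonneg (z k : ℝ); linarith)
  have h2 : ∀ k ∈ univ.filter (fun k => z k ≠ 0), (1 : ℝ) ≤ 2 * Real.log (1 + |(z k : ℝ)|) := by
    intro k hk
    have hz : z k ≠ 0 := (mem_filter.1 hk).2
    have h3 : (1 : ℝ) ≤ |(z k : ℝ)| := by
      have := Int.one_le_abs hz
      exact_mod_cast this
    have h4 : Real.log 2 ≤ Real.log (1 + |(z k : ℝ)|) :=
      Real.log_le_log (by norm_num) (by linarith)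
    have h5 := Real.log_two_gt_d9
    linarith
  calc (#(univ.filter (fun k => z k ≠ 0)) : ℝ)
      = ∑ _k ∈ univ.filter (fun k => z k ≠ 0), (1 : ℝ) := by simp
    _ ≤ ∑ k ∈ univ.filter (fun k => z k ≠ 0), 2 * Real.log (1 + |(z k : ℝ)|) := sum_le_sum h2
    _ ≤ ∑ k, 2 * Real.log (1 + |(z k : ℝ)|) :=
        sum_le_sum_of_subset_of_nonneg (filter_subset _ _) (fun k _ _ => by
          have := h1 k; linarith)
    _ = 2 * ∑ k, Real.log (1 + |(z k : ℝ)|) := by rw [mul_sum]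

theorem lc_nonneg (z : ι → ℤ) : 0 ≤ lc z :=
  sum_nonneg fun k _ => Real.log_nonneg (by have := abs_nonneg (z k : ℝ); linarith)

end

end Pool.Agent.Helper94.ZS
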