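import Pool.Agent.Helper99.ZS.Lib

set_option autoImplicit false

/-!
MP_98699e_co: merging two trees at the root (module MG).
-/

open Finset MeasureTheory
open scoped Pointwise

noncomputable section

namespace ZS

section mg
variable {V : Type} [Fintype V] [DecidableEq V] {p : ℕ} [NeZero p]

open Classical in
/-- attaching the tree `t'` costs little -/
theorem mg_side (h2 : ST_FALL) (h3 : ST_ATT) (h : Host V p) (D : ℕ) (hD : 0 < D) (hg : h.Good D)
    (t' t'' t : RT) (s : Bool) (u : V) (hu : (h.N s u).Nonempty) (T : ℕ) (θ' θ'' : ℝ)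
    (h0' : 0 < θ') (h1' : θ' ≤ 1 / 4) (h0 : 0 < θ'') (h1 : θ'' ≤ 1 / 4)
    (he : 1 ≤ t'.e) (heD : 2 * t'.e ≤ D)
    (hc : ∀ φ x, Emb h t' s u φ x → ∀ C : Finset V, Disjoint C φ →
      #(X h t'' s u C) ≤ #(X h t s u (C ∪ φ))) :
    EE2 θ'' θ' (fun A B => (if X h t' s u B = ∅ then 1 else 0) *
      max ((cs h t'' s u T A : ℝ) - cs h t s u T (A ∪ B)) 0) ≤
    (t'.e * (4 * T / (θ'' * D))) * E θ' (fun a => if X h t' s u a = ∅ then 1 else 0) := by
  have hDp : (0 : ℝ) < D := by exact_mod_cast hD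
  have hpos : 0 < 1 - θ' := by linarith
  have hθ : 0 < θ'' / (1 - θ') := div_pos h0 hpos
  have hθ2 : 2 * (θ'' / (1 - θ')) ≤ 1 := by
    rw [← mul_div_assoc, div_le_one hpos]; linarith
  have hθ3 : θ'' ≤ θ'' / (1 - θ') := by
    rw [le_div_iff₀ hpos]; nlinarith
  have hind : ∀ B : Finset V, (0 : ℝ) ≤ if X h t' s u B = ∅ then 1 else 0 := by
    intro B; split_ifs <;> norm_num
  have hF := h2 V θ'' θ' h0.le h0'.le h1 h1'
    (fun A B => (if X h t' s u B = ∅ then 1 else 0) *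
      max ((cs h t'' s u T A : ℝ) - cs h t s u T (A ∪ B)) 0)
    (fun A B => mul_nonneg (hind B) (le_max_right _ _))
    (by
      intro A B B' hBB
      have hx := X_mono h t' s u hBB
      have hcs : (cs h t s u T (A ∪ B) : ℝ) ≤ cs h t s u T (A ∪ B') := by
        exact_mod_cast cs_mono h t s u T (union_subset_union_right hBB)
      have hmax : max ((cs h t'' s u T A : ℝ) - cs h t s u T (A ∪ B')) 0 ≤
          max ((cs h t'' s u T A : ℝ) - cs h t s u T (A ∪ B)) 0 :=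
        max_le_max (by linarith) le_rfl
      show (if X h t' s u B' = ∅ then (1 : ℝ) else 0) * _ ≤
        (if X h t' s u B = ∅ then (1 : ℝ) else 0) * _
      refine mul_le_mul ?_ hmax (le_max_right _ _) (hind B)
      by_cases hB' : X h t' s u B' = ∅
      · have hB : X h t' s u B = ∅ := by
          rw [hB'] at hx; exact subset_empty.1 hx
        rw [if_pos hB', if_pos hB]
      · rw [if_neg hB']; exact hind B)
  refine hF.trans ?_
  rw [← E_mul]
  refine E_mono h0'.le (by linarith) fun a => ?_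
  show EE (θ'' / (1 - θ')) (fun B => (if X h t' s u a = ∅ then (1 : ℝ) else 0) *
      max ((cs h t'' s u T (B \ a) : ℝ) - cs h t s u T ((B \ a) ∪ a)) 0) ≤ _
  rw [EE_mul, mul_comm]
  refine mul_le_mul_of_nonneg_right ?_ (hind a)
  have hATT := h3 V p h D hg t' s u (θ'' / (1 - θ')) T hθ hθ2 heD he hu
    (fun B => (cs h t'' s u T (B \ a) : ℝ)) (fun B => (cs h t s u T (B ∪ a) : ℝ))
    (fun A B hAB => by exact_mod_cast cs_mono h t'' s u T (sdiff_subset_sdiff hAB le_rfl))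
    (fun A B hAB => by exact_mod_cast cs_mono h t s u T (union_subset_union_left hAB))
    (fun A => by positivity) (fun A => by exact_mod_cast cs_le h t'' s u T _)
    (fun A => by positivity) (fun A => by exact_mod_cast cs_le h t s u T _)
    (by
      intro φ x hE B
      have hd : Disjoint ((B \ φ) \ a) φ :=
        disjoint_of_subset_left sdiff_subset sdiff_disjoint
      have hk := hc φ x hE ((B \ φ) \ a) hd
      have hk2 : ((B \ φ) \ a) ∪ φ ⊆ (B ∪ φ) ∪ a := by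
        intro y hy
        rw [mem_union, mem_sdiff, mem_sdiff] at hy
        rw [mem_union, mem_union]
        tauto
      have hk3 := card_le_card (X_mono h t s u hk2)
      show ((cs h t'' s u T ((B \ φ) \ a) : ℕ) : ℝ) ≤ cs h t s u T ((B ∪ φ) ∪ a)
      have : cs h t'' s u T ((B \ φ) \ a) ≤ cs h t s u T ((B ∪ φ) ∪ a) := by
        unfold cs; omega
      exact_mod_cast this)
  have hun : ∀ B : Finset V, (B \ a) ∪ a = B ∪ a := fun B => sdiff_union_self_eq_union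
  simp only [hun]
  refine hATT.trans ?_
  refine mul_le_mul_of_nonneg_left ?_ (by positivity)
  refine div_le_div_of_nonneg_left (by positivity) (by positivity) ?_
  exact mul_le_mul_of_nonneg_right hθ3 hDp.le

end mg

open Classical in
/-- the pointwise inequality -/
theorem mg_point {V : Type} [Fintype V] [DecidableEq V] {p : ℕ} [Fact p.Prime] (h : Host V p)
    (t₁ t₂ : RT) (s : Bool) (u : V) (T₁ T₂ T : ℕ) (hT₁ : 1 ≤ T₁) (hT₂ : 1 ≤ T₂) (h₁ : T₁ ≤ T)
    (h₂ : T₂ ≤ T) (hp : T ≤ p) (hT : T ≤ T₁ + T₂ - 1) (A B : Finset V) (hd : Disjoint A B) :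
    (T : ℝ) - cs h (t₁.app t₂) s u T (A ∪ B) ≤
      ((T₁ : ℝ) - cs h t₁ s u T₁ A) + ((T₂ : ℝ) - cs h t₂ s u T₂ B) +
      (if X h t₂ s u B = ∅ then 1 else 0) *
        max ((cs h t₁ s u T₁ A : ℝ) - cs h (t₁.app t₂) s u T₁ (A ∪ B)) 0 +
      (if X h t₁ s u A = ∅ then 1 else 0) *
        max ((cs h t₂ s u T₂ B : ℝ) - cs h (t₁.app t₂) s u T₂ (A ∪ B)) 0 := by
  have hTr : (T : ℝ) ≤ T₁ + T₂ - 1 := by
    have : T + 1 ≤ T₁ + T₂ := by omega
    have : (T : ℝ) + 1 ≤ T₁ + T₂ := by exact_mod_cast this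
    linarith
  have hF1 : (cs h t₁ s u T₁ A : ℝ) ≤ T₁ := by exact_mod_cast cs_le h t₁ s u T₁ A
  have hF2 : (cs h t₂ s u T₂ B : ℝ) ≤ T₂ := by exact_mod_cast cs_le h t₂ s u T₂ B
  have hc1 : (cs h (t₁.app t₂) s u T₁ (A ∪ B) : ℝ) ≤ cs h (t₁.app t₂) s u T (A ∪ B) := by
    have : cs h (t₁.app t₂) s u T₁ (A ∪ B) ≤ cs h (t₁.app t₂) s u T (A ∪ B) := by
      unfold cs; omega
    exact_mod_cast this
  have hc2 : (cs h (t₁.app t₂) s u T₂ (A ∪ B) : ℝ) ≤ cs h (t₁.app t₂) s u T (A ∪ B) := by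
    have : cs h (t₁.app t₂) s u T₂ (A ∪ B) ≤ cs h (t₁.app t₂) s u T (A ∪ B) := by
      unfold cs; omega
    exact_mod_cast this
  have hm1 : (0 : ℝ) ≤ max ((cs h t₁ s u T₁ A : ℝ) - cs h (t₁.app t₂) s u T₁ (A ∪ B)) 0 :=
    le_max_right _ _
  have hm1' := le_max_left ((cs h t₁ s u T₁ A : ℝ) - cs h (t₁.app t₂) s u T₁ (A ∪ B)) 0
  have hm2 : (0 : ℝ) ≤ max ((cs h t₂ s u T₂ B : ℝ) - cs h (t₁.app t₂) s u T₂ (A ∪ B)) 0 :=
    le_max_right _ _
  have hm2' := le_max_left ((cs h t₂ s u T₂ B : ℝ) - cs h (t₁.app t₂) s u T₂ (A ∪ B)) 0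
  have hFn : (0 : ℝ) ≤ cs h (t₁.app t₂) s u T (A ∪ B) := by positivity
  by_cases hA : X h t₁ s u A = ∅
  · have hA0 : (cs h t₁ s u T₁ A : ℝ) = 0 := by
      have : cs h t₁ s u T₁ A = 0 := by unfold cs; rw [hA]; simp
      exact_mod_cast this
    by_cases hB : X h t₂ s u B = ∅
    · have hB0 : (cs h t₂ s u T₂ B : ℝ) = 0 := by
        have : cs h t₂ s u T₂ B = 0 := by unfold cs; rw [hB]; simp
        exact_mod_cast this
      rw [if_pos hA, if_pos hB]
      linarith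
    · rw [if_pos hA, if_neg hB]
      linarith
  · by_cases hB : X h t₂ s u B = ∅
    · have hB0 : (cs h t₂ s u T₂ B : ℝ) = 0 := by
        have : cs h t₂ s u T₂ B = 0 := by unfold cs; rw [hB]; simp
        exact_mod_cast this
      rw [if_neg hA, if_pos hB]
      linarith
    · rw [if_neg hA, if_neg hB]
      have hCD := ZMod.cauchy_davenport (Fact.out : p.Prime)
        (nonempty_iff_ne_empty.2 hA) (nonempty_iff_ne_empty.2 hB)
      have hsub : X h t₁ s u A + X h t₂ s u B ⊆ X h (t₁.app t₂) s u (A ∪ B) := by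
        intro z hz
        obtain ⟨x, hx, y, hy, rfl⟩ := mem_add.1 hz
        exact X_app h t₁ t₂ s u hd hx hy
      have hcard := card_le_card hsub
      have hk : T + cs h t₁ s u T₁ A + cs h t₂ s u T₂ B ≤
          T₁ + T₂ + cs h (t₁.app t₂) s u T (A ∪ B) := by
        have q1 : 0 < #(X h t₁ s u A) := card_pos.2 (nonempty_iff_ne_empty.2 hA)
        have q2 : 0 < #(X h t₂ s u B) := card_pos.2 (nonempty_iff_ne_empty.2 hB)
        unfold cs
        omega
      have hk' : (T : ℝ) + cs h t₁ s u T₁ A + cs h t₂ s u T₂ B ≤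
          T₁ + T₂ + cs h (t₁.app t₂) s u T (A ∪ B) := by exact_mod_cast hk
      linarith

open Classical in
theorem st_MG (h1 : ST_E2M) (h2 : ST_FALL) (h3 : ST_ATT) : ST_MG := by
  intro V _ _ p _ h D hD hg t₁ t₂ s T₁ T₂ T θ₁ θ₂ ha ha' hb hb' e1 e2 e1D e2D hT₁ hT₂ hTT₁ hTT₂
    hTp hT
  have hsum : θ₁ + θ₂ ≤ 1 / 2 := by linarith
  have key : ∀ u : V, (h.N s u).Nonempty →
      EE (θ₁ + θ₂) (fun A => (T : ℝ) - cs h (t₁.app t₂) s u T A) ≤
        EE θ₁ (fun A => (T₁ : ℝ) - cs h t₁ s u T₁ A) +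
        EE θ₂ (fun A => (T₂ : ℝ) - cs h t₂ s u T₂ A) +
        (t₂.e * (4 * T₁ / (θ₁ * D))) * E θ₂ (fun a => if X h t₂ s u a = ∅ then 1 else 0) +
        (t₁.e * (4 * T₂ / (θ₂ * D))) * E θ₁ (fun a => if X h t₁ s u a = ∅ then 1 else 0) := by
    intro u hu
    rw [← EE2_union h1 ha.le hb.le hsum (fun A => (T : ℝ) - cs h (t₁.app t₂) s u T A)]
    refine (EE2_mono ha.le hb.le hsum fun A B hd =>
      mg_point h t₁ t₂ s u T₁ T₂ T hT₁ hT₂ hTT₁ hTT₂ hTp hT A B hd).trans ?_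
    rw [EE2_add, EE2_add, EE2_add,
      EE2_left h1 ha.le hb.le hsum (fun A => (T₁ : ℝ) - cs h t₁ s u T₁ A),
      EE2_right h1 ha.le hb.le hsum (fun B => (T₂ : ℝ) - cs h t₂ s u T₂ B)]
    have s1 := mg_side h2 h3 h D hD hg t₂ t₁ (t₁.app t₂) s u hu T₁ θ₂ θ₁ hb hb' ha ha' e2 e2D
      (by
        intro φ x hE C hC
        have hx : x ∈ X h t₂ s u φ := (mem_X _ _ _ _ _ _).2 ⟨φ, Subset.refl _, hE⟩
        refine card_le_card_of_injOn (fun y => y + x) (fun y hy => X_app h t₁ t₂ s u hC hy hx) ?_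
        intro y _ z _ hyz
        exact add_right_cancel hyz)
    have s2 := mg_side h2 h3 h D hD hg t₁ t₂ (t₁.app t₂) s u hu T₂ θ₁ θ₂ ha ha' hb hb' e1 e1D
      (by
        intro φ x hE C hC
        have hx : x ∈ X h t₁ s u φ := (mem_X _ _ _ _ _ _).2 ⟨φ, Subset.refl _, hE⟩
        refine card_le_card_of_injOn (fun y => x + y) (fun y hy => ?_) ?_
        · have := X_app h t₁ t₂ s u hC.symm hx hy
          rwa [union_comm] at this
        · intro y _ z _ hyz
          exact add_left_cancel hyz)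
    have s3 := EE2_swap h1 ha.le hb.le hsum (fun A B => (if X h t₁ s u A = ∅ then (1 : ℝ) else 0) *
        max ((cs h t₂ s u T₂ B : ℝ) - cs h (t₁.app t₂) s u T₂ (A ∪ B)) 0)
    have s4 : EE2 θ₁ θ₂ (fun A B => (if X h t₁ s u A = ∅ then (1 : ℝ) else 0) *
        max ((cs h t₂ s u T₂ B : ℝ) - cs h (t₁.app t₂) s u T₂ (A ∪ B)) 0) ≤
        (t₁.e * (4 * T₂ / (θ₂ * D))) * E θ₁ (fun a => if X h t₁ s u a = ∅ then 1 else 0) := by
      rw [s3]
      have hcomm : (fun A B => (fun A B : Finset V => (if X h t₁ s u A = ∅ then (1 : ℝ) else 0) *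
          max ((cs h t₂ s u T₂ B : ℝ) - cs h (t₁.app t₂) s u T₂ (A ∪ B)) 0) B A) =
          fun A B => (if X h t₁ s u B = ∅ then (1 : ℝ) else 0) *
          max ((cs h t₂ s u T₂ A : ℝ) - cs h (t₁.app t₂) s u T₂ (A ∪ B)) 0 := by
        funext A B
        show (if X h t₁ s u B = ∅ then (1 : ℝ) else 0) *
          max ((cs h t₂ s u T₂ A : ℝ) - cs h (t₁.app t₂) s u T₂ (B ∪ A)) 0 = _
        rw [union_comm B A]
      rw [hcomm]
      exact s2
    linarith
  have key2 := av_mono (h := h) (s := s) key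
  rw [av_add, av_add, av_add, av_mul, av_mul] at key2
  exact key2

end ZS
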